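import Pool.Agent.Q130.TC.Stm2
import Pool.Agent.Y948.RO.HT
import Pool.Agent.Y510.RO.MV
import Pool.Agent.Y108.RO.CTG

/-!
# Project TC, part VK: the vectors `VV` are an approximate chain
-/

set_option autoImplicit false

namespace Pool.Agent.Q272.TC.VK

open MeasureTheory Set Metric Filter Topology
open scoped InnerProductSpace ENNReal NNReal ComplexConjugate
open Pool.Agent.Y283.NK (ct IsMul fr)
open Pool.Agent.Y271.RO (ht Bd mv)
open Pool.Agent.Q130.TC

lemma nm_nonneg (m : ℕ) (c : ℕ → ℂ) : 0 ≤ nm m c := Real.sqrt_nonneg _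

lemma nm_sq (m : ℕ) (c : ℕ → ℂ) : nm m c ^ 2 = ∑ i ∈ Finset.range m, ‖c i‖ ^ 2 :=
  Real.sq_sqrt (Finset.sum_nonneg fun _ _ => by positivity)

lemma le_nm {m : ℕ} (c : ℕ → ℂ) {j : ℕ} (hj : j < m) : ‖c j‖ ≤ nm m c := by
  rw [nm]
  refine Real.le_sqrt_of_sq_le ?_
  exact Finset.single_le_sum (f := fun i => ‖c i‖ ^ 2) (fun _ _ => by positivity)
    (Finset.mem_range.2 hj)

lemma nm_le_sum (m : ℕ) (c : ℕ → ℂ) : nm m c ≤ ∑ i ∈ Finset.range m, ‖c i‖ := by
  rw [nm]
  refine Real.sqrt_le_iff.2 ⟨Finset.sum_nonneg fun _ _ => norm_nonneg _, ?_⟩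
  exact Finset.sum_sq_le_sq_sum_of_nonneg fun _ _ => norm_nonneg _

lemma nm_smul (m : ℕ) (t : ℂ) (c : ℕ → ℂ) : nm m (fun i => t * c i) = ‖t‖ * nm m c := by
  rw [nm, nm]
  have h : ∑ i ∈ Finset.range m, ‖t * c i‖ ^ 2 = ‖t‖ ^ 2 * ∑ i ∈ Finset.range m, ‖c i‖ ^ 2 := by
    rw [Finset.mul_sum]
    exact Finset.sum_congr rfl fun i _ => by rw [norm_mul, mul_pow]
  rw [h, Real.sqrt_mul (by positivity), Real.sqrt_sq (norm_nonneg _)]

lemma nm_congr {m : ℕ} {c d : ℕ → ℂ} (h : ∀ i < m, c i = d i) : nm m c = nm m d := by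
  rw [nm, nm, Finset.sum_congr rfl fun i hi => by rw [h i (Finset.mem_range.1 hi)]]

lemma nm_mono {m : ℕ} {c d : ℕ → ℂ} (h : ∀ i < m, ‖c i‖ ≤ ‖d i‖) : nm m c ≤ nm m d := by
  rw [nm, nm]
  refine Real.sqrt_le_sqrt (Finset.sum_le_sum fun i hi => ?_)
  exact pow_le_pow_left₀ (norm_nonneg _) (h i (Finset.mem_range.1 hi)) 2

/-- Cauchy–Schwarz in a normed space -/
lemma cs {E : Type*} [SeminormedAddCommGroup E] [NormedSpace ℂ E] (m : ℕ) (c : ℕ → ℂ)
    (x : ℕ → E) : ‖∑ i ∈ Finset.range m, c i • x i‖ ≤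
      nm m c * √(∑ i ∈ Finset.range m, ‖x i‖ ^ 2) := by
  refine (norm_sum_le _ _).trans ?_
  simp only [norm_smul]
  rw [nm]
  exact Real.sum_mul_le_sqrt_mul_sqrt _ _ _

/-- Minkowski's inequality for integrals -/
lemma mink {α : Type*} [MeasurableSpace α] (ν : Measure α) (m : ℕ) (F : ℕ → α → ℂ)
    (hF : ∀ i < m, Integrable (F i) ν) :
    Integrable (fun z => nm m fun i => F i z) ν ∧
      nm m (fun i => ∫ z, F i z ∂ν) ≤ ∫ z, nm m (fun i => F i z) ∂ν := by
  have hmeas : AEStronglyMeasurable (fun z => nm m fun i => F i z) ν := by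
    unfold nm
    have h1 : AEStronglyMeasurable (fun z => ∑ i ∈ Finset.range m, ‖F i z‖ ^ 2) ν := by
      have h2 := Finset.aestronglyMeasurable_sum (Finset.range m)
        (f := fun i z => ‖F i z‖ ^ 2) (μ := ν) fun i hi =>
        ((hF i (Finset.mem_range.1 hi)).aestronglyMeasurable.norm.pow 2)
      refine h2.congr (Eventually.of_forall fun z => ?_)
      simp only [Finset.sum_apply]
    exact Real.continuous_sqrt.comp_aestronglyMeasurable h1
  have hint : Integrable (fun z => nm m fun i => F i z) ν := by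
    have h2 := integrable_finsetSum (Finset.range m) (f := fun i z => ‖F i z‖) (μ := ν)
      fun i hi => (hF i (Finset.mem_range.1 hi)).norm
    refine h2.mono' hmeas (Eventually.of_forall fun z => ?_)
    rw [Real.norm_of_nonneg (nm_nonneg _ _)]
    exact nm_le_sum _ _
  refine ⟨hint, ?_⟩
  obtain ⟨I, hI⟩ : ∃ I : ℕ → ℂ, I = fun i => ∫ z, F i z ∂ν := ⟨_, rfl⟩
  rw [← hI]
  obtain ⟨A, hA⟩ : ∃ A : ℝ, A = nm m I := ⟨_, rfl⟩
  rw [← hA]
  have hA0 : 0 ≤ A := by rw [hA]; exact nm_nonneg _ _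
  have hJ0 : 0 ≤ ∫ z, nm m (fun i => F i z) ∂ν := integral_nonneg fun z => nm_nonneg _ _
  have key : A ^ 2 ≤ A * ∫ z, nm m (fun i => F i z) ∂ν := by
    have h1 : ((A ^ 2 : ℝ) : ℂ) = ∫ z, ∑ i ∈ Finset.range m, conj (I i) * F i z ∂ν := by
      rw [integral_finsetSum _ fun i hi => (hF i (Finset.mem_range.1 hi)).const_mul _, hA, nm_sq]
      push_cast
      refine Finset.sum_congr rfl fun i _ => ?_
      rw [integral_const_mul, ← Complex.conj_mul']
      rw [hI]
    have h2 : ‖∫ z, ∑ i ∈ Finset.range m, conj (I i) * F i z ∂ν‖ ≤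
        ∫ z, A * nm m (fun i => F i z) ∂ν := by
      refine norm_integral_le_of_norm_le (hint.const_mul A) (Eventually.of_forall fun z => ?_)
      refine (cs m (fun i => conj (I i)) (fun i => F i z)).trans (le_of_eq ?_)
      rw [hA]
      congr 1
      rw [nm, nm]
      simp only [RCLike.norm_conj]
    rw [← h1, integral_const_mul, Complex.norm_real, Real.norm_of_nonneg (by positivity)] at h2
    exact h2
  rcases hA0.eq_or_lt with h | h
  · rw [← h]
    exact hJ0
  · rw [sq] at key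
    exact le_of_mul_le_mul_left key h

/-- the norm of a function which is dominated by a sum -/
lemma dom {S : Type} [MeasurableSpace S] {μ : Measure S} (u : ℕ → Lp ℂ 2 μ) (m : ℕ) (U₀ : ℝ)
    (hU₀ : 0 ≤ U₀) (hu : ∑ j ∈ Finset.range m, ‖u j‖ ^ 2 ≤ U₀ ^ 2) (V W : Lp ℂ 2 μ) (A B : ℝ)
    (hA : 0 ≤ A) (hB : 0 ≤ B)
    (h : ∀ᵐ s ∂μ, ‖V s‖ ≤ A * ‖W s‖ + B * √(∑ j ∈ Finset.range m, ‖u j s‖ ^ 2)) :
    ‖V‖ ≤ A * ‖W‖ + B * U₀ := by
  obtain ⟨Uf, hUf⟩ : ∃ Uf : S → ℝ, Uf = fun s => √(∑ j ∈ Finset.range m, ‖u j s‖ ^ 2) := ⟨_, rfl⟩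
  have hUm : AEStronglyMeasurable Uf μ := by
    rw [hUf]
    have h2 := Finset.aestronglyMeasurable_sum (Finset.range m)
        (f := fun j s => ‖u j s‖ ^ 2) (μ := μ) fun j _ =>
        ((Lp.aestronglyMeasurable (u j)).norm.pow 2)
    have h1 : AEStronglyMeasurable (fun s => ∑ j ∈ Finset.range m, ‖u j s‖ ^ 2) μ := by
      refine h2.congr (Eventually.of_forall fun z => ?_)
      simp only [Finset.sum_apply]
    exact Real.continuous_sqrt.comp_aestronglyMeasurable h1
  have hsq : ∀ s, Uf s ^ 2 = ∑ j ∈ Finset.range m, ‖u j s‖ ^ 2 := fun s => by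
    rw [hUf]
    exact Real.sq_sqrt (Finset.sum_nonneg fun _ _ => by positivity)
  have hint2 : ∀ j, Integrable (fun s => ‖u j s‖ ^ 2) μ := fun j =>
    (Lp.memLp (u j)).integrable_norm_pow (by norm_num)
  have hUL : MemLp Uf 2 μ := by
    rw [memLp_two_iff_integrable_sq hUm]
    have : (fun s => Uf s ^ 2) = fun s => ∑ j ∈ Finset.range m, ‖u j s‖ ^ 2 := funext hsq
    rw [this]
    exact integrable_finsetSum _ fun j _ => hint2 j
  have hWL : MemLp (fun s => ‖W s‖) 2 μ := (Lp.memLp W).norm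
  obtain ⟨U, hU⟩ : ∃ U : Lp ℝ 2 μ, U = hUL.toLp Uf := ⟨_, rfl⟩
  obtain ⟨W', hW'⟩ : ∃ W' : Lp ℝ 2 μ, W' = hWL.toLp _ := ⟨_, rfl⟩
  have hWn : ‖W'‖ = ‖W‖ := by
    rw [hW', Lp.norm_toLp, eLpNorm_norm, Lp.norm_def]
  have hnorm : ∀ w : Lp ℂ 2 μ, ‖w‖ ^ 2 = ∫ s, ‖w s‖ ^ 2 ∂μ := by
    intro w
    have h1 : ((‖w‖ ^ 2 : ℝ) : ℂ) = ⟪w, w⟫_ℂ := by
      rw [inner_self_eq_norm_sq_to_K]
      push_cast
      rfl
    rw [L2.inner_def] at h1
    have h2 : ∫ s, ⟪w s, w s⟫_ℂ ∂μ = ((∫ s, ‖w s‖ ^ 2 ∂μ : ℝ) : ℂ) := by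
      rw [← integral_complex_ofReal]
      refine integral_congr_ae (Eventually.of_forall fun s => ?_)
      show ⟪w s, w s⟫_ℂ = ((‖w s‖ ^ 2 : ℝ) : ℂ)
      rw [inner_self_eq_norm_sq_to_K]
      push_cast
      rfl
    rw [h2] at h1
    exact_mod_cast h1
  have hUn : ‖U‖ ≤ U₀ := by
    have h1 : ‖U‖ ^ 2 = ∫ s, Uf s ^ 2 ∂μ := by
      have h2 : ‖U‖ ^ 2 = ⟪U, U⟫_ℝ := (real_inner_self_eq_norm_sq U).symm
      rw [h2, L2.inner_def]
      refine integral_congr_ae ?_
      rw [hU]
      filter_upwards [hUL.coeFn_toLp] with s hs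
      rw [hs]
      simp [sq]
    have h3 : ∫ s, Uf s ^ 2 ∂μ = ∑ j ∈ Finset.range m, ‖u j‖ ^ 2 := by
      simp only [hsq]
      rw [integral_finsetSum _ fun j _ => hint2 j]
      exact Finset.sum_congr rfl fun j _ => (hnorm (u j)).symm
    rw [h3] at h1
    exact abs_le_of_sq_le_sq' (h1.le.trans hu) hU₀ |>.2
  have h1 : ‖V‖ ≤ ‖A • W' + B • U‖ := by
    refine Lp.norm_le_norm_of_ae_le ?_
    filter_upwards [h, Lp.coeFn_add (A • W') (B • U), Lp.coeFn_smul A W', Lp.coeFn_smul B U,
      hUL.coeFn_toLp, hWL.coeFn_toLp] with s e1 e2 e3 e4 e5 e6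
    rw [e2, Pi.add_apply, e3, e4, Pi.smul_apply, Pi.smul_apply, hU, hW', e5, e6, smul_eq_mul,
      smul_eq_mul, hUf]
    exact e1.trans (le_abs_self _)
  refine h1.trans ((norm_add_le _ _).trans ?_)
  rw [norm_smul, norm_smul, Real.norm_of_nonneg hA, Real.norm_of_nonneg hB, hWn]
  gcongr

theorem vk : S_VK := by
  intro S _ μ _ φ N hN u v m U₀ hU₀ hu g ρ B a hρ hgm hgB hg0 c hcm hc1
  obtain ⟨K₀, hK₀, hHT⟩ := Pool.Agent.Y948.RO.main ρ hρ
  have hMV := Pool.Agent.Y510.RO.MV.main S μ φ N hN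
  have hCTG := Pool.Agent.Y108.RO.main S μ φ hN.meas
  have hB0 : 0 ≤ B := (hgB 0).1.trans (hgB 0).2
  have hc : ∀ j, j < m → ∀ z, ‖c j z‖ ≤ 1 := fun j hj z =>
    (le_nm (fun j => c j z) hj).trans (hc1 z)
  -- the functions `G k j`
  obtain ⟨G, hG⟩ : ∃ G : ℕ → ℕ → ℂ → ℂ,
      G = fun k j z => (z - a) ^ k * ((g z : ℂ) * c j z) := ⟨_, rfl⟩
  have hGk : ∀ k j z, G k j z = (z - a) ^ k * ((g z : ℂ) * c j z) := fun k j z => by rw [hG]
  have hgn : ∀ z, ‖(g z : ℂ)‖ = g z := fun z => by
    rw [Complex.norm_real, Real.norm_of_nonneg (hgB z).1]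
  have hpow : ∀ (k : ℕ) (z : ℂ), ‖(z - a) ^ k‖ * g z ≤ ρ ^ k * g z := by
    intro k z
    by_cases hz : z ∈ ball a ρ
    · have h1 : ‖z - a‖ ≤ ρ := by
        rw [mem_ball, dist_eq_norm] at hz
        exact hz.le
      rw [norm_pow]
      exact mul_le_mul_of_nonneg_right (pow_le_pow_left₀ (norm_nonneg _) h1 k) (hgB z).1
    · rw [hg0 z hz, mul_zero, mul_zero]
  have hBd : ∀ k j, j < m → Bd (G k j) a ρ (ρ ^ k * B) := by
    intro k j hj
    refine ⟨?_, by positivity, ?_, ?_⟩
    · rw [hG]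
      exact (((measurable_id.sub measurable_const).pow_const k)).mul
        ((Complex.measurable_ofReal.comp hgm).mul (hcm j))
    · intro z
      rw [hGk, norm_mul, norm_mul, hgn]
      calc ‖(z - a) ^ k‖ * (g z * ‖c j z‖) ≤ ‖(z - a) ^ k‖ * (g z * 1) := by
            have h1 := mul_le_mul_of_nonneg_left (hc j hj z) (hgB z).1
            exact mul_le_mul_of_nonneg_left h1 (norm_nonneg _)
        _ = ‖(z - a) ^ k‖ * g z := by ring
        _ ≤ ρ ^ k * g z := hpow k z
        _ ≤ ρ ^ k * B := mul_le_mul_of_nonneg_left (hgB z).2 (by positivity)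
    · intro z hz
      rw [hGk, hg0 z hz]
      simp
  have hH : ∀ k j, j < m → _ := fun k j hj => hHT a (ρ ^ k * B) (G k j) (hBd k j hj)
  have hgint : Integrable g := by
    have h1 : Integrable (fun z => (g z : ℂ)) := by
      refine (hHT a B (fun z => (g z : ℂ)) ⟨Complex.measurable_ofReal.comp hgm, hB0, fun z => ?_,
        fun z hz => ?_⟩).1
      · rw [hgn]; exact (hgB z).2
      · rw [hg0 z hz]; simp
    have h2 := h1.re
    simpa using h2
  have hgI0 : 0 ≤ ∫ z, g z := integral_nonneg fun z => (hgB z).1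
  have hV : ∀ k, VV φ u m a g c k = ∑ j ∈ Finset.range m, mv φ (u j) (ht (G k j)) := by
    intro k
    unfold VV
    rw [hG]
  have hMVk : ∀ k j, j < m → _ := fun k j hj =>
    hMV (u j) (ht (G k j)) (K₀ * (ρ ^ k * B)) (hH k j hj).2.1
      (by positivity) (fun s => (hH k j hj).2.2.2.1 (φ s))
  -- second claim
  have h2 : ∀ k, N (VV φ u m a g c k) - a • VV φ u m a g c k = VV φ u m a g c (k + 1) -
        ∑ j ∈ Finset.range m, (∫ z, G k j z) • u j := by
    intro k
    rw [hV, hV, map_sum, Finset.smul_sum, ← Finset.sum_sub_distrib, ← Finset.sum_sub_distrib]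
    refine Finset.sum_congr rfl fun j hj => ?_
    have hj' := Finset.mem_range.1 hj
    refine Lp.ext ?_
    filter_upwards [Lp.coeFn_sub (N (mv φ (u j) (ht (G k j)))) (a • mv φ (u j) (ht (G k j))),
      Lp.coeFn_smul a (mv φ (u j) (ht (G k j))), hN.eq (mv φ (u j) (ht (G k j))),
      (hMVk k j hj').1, (hMVk (k + 1) j hj').1,
      Lp.coeFn_sub (mv φ (u j) (ht (G (k + 1) j))) ((∫ z, G k j z) • u j),
      Lp.coeFn_smul (∫ z, G k j z) (u j)] with s e1 e2 e3 e4 e5 e6 e7
    rw [e1, Pi.sub_apply, e2, Pi.smul_apply, e3, e4, e6, Pi.sub_apply, e5, e7, Pi.smul_apply,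
      smul_eq_mul, smul_eq_mul]
    have h2 := (hH k j hj').2.2.2.2 a (φ s)
    have h3 : (fun z => (z - a) * G k j z) = G (k + 1) j := by
      funext z
      rw [hGk, hGk]
      ring
    rw [h3] at h2
    rw [h2]
    ring
  -- inner products
  have h4 : ∀ (X : Lp ℂ 2 μ) (k : ℕ), ⟪X, VV φ u m a g c k⟫_ℂ =
      ∑ j ∈ Finset.range m, ∫ z, G k j z * ct φ X (u j) z := by
    intro X k
    rw [hV, inner_sum]
    refine Finset.sum_congr rfl fun j hj => ?_
    have hj' := Finset.mem_range.1 hj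
    rw [(hMVk k j hj').2.2.2 X, ((hCTG X (u j)).2.2 a ρ _ _ (hBd k j hj')).2]
  -- the components of `(z - a)^k g Am`
  have hAm : ∀ (k i : ℕ) (z : ℂ), (z - a) ^ k * (g z : ℂ) * Am φ u v m z (fun j => c j z) i =
      G k i z - ∑ j ∈ Finset.range m, G k j z * ct φ (v i) (u j) z := by
    intro k i z
    unfold Am
    rw [hGk, mul_sub, Finset.mul_sum]
    congr 1
    · ring
    · refine Finset.sum_congr rfl fun j _ => ?_
      rw [hGk]
      ring
  have hFi : ∀ (k i : ℕ), i < m → Integrable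
      (fun z => (z - a) ^ k * (g z : ℂ) * Am φ u v m z (fun j => c j z) i) := by
    intro k i hi
    simp only [hAm]
    exact (hH k i hi).1.sub (integrable_finsetSum _ fun j hj =>
      ((hCTG (v i) (u j)).2.2 a ρ _ _ (hBd k j (Finset.mem_range.1 hj))).1)
  have hFint : ∀ (k i : ℕ), i < m →
      ∫ z, (z - a) ^ k * (g z : ℂ) * Am φ u v m z (fun j => c j z) i =
        (∫ z, G k i z) - ⟪v i, VV φ u m a g c k⟫_ℂ := by
    intro k i hi
    simp only [hAm]
    rw [integral_sub (hH k i hi).1 (integrable_finsetSum _ fun j hj =>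
      ((hCTG (v i) (u j)).2.2 a ρ _ _ (hBd k j (Finset.mem_range.1 hj))).1),
      integral_finsetSum _ fun j hj =>
      ((hCTG (v i) (u j)).2.2 a ρ _ _ (hBd k j (Finset.mem_range.1 hj))).1, h4]
  have hgA : Integrable (fun z => g z * nm m (Am φ u v m z fun j => c j z)) := by
    have h5 := (mink volume m (fun i z => (z - a) ^ 0 * (g z : ℂ) *
      Am φ u v m z (fun j => c j z) i) (fun i hi => hFi 0 i hi)).1
    refine h5.congr (Eventually.of_forall fun z => ?_)
    show nm m (fun i => (z - a) ^ 0 * (g z : ℂ) * Am φ u v m z (fun j => c j z) i) = _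
    rw [nm_smul, pow_zero, one_mul, hgn]
  refine ⟨?_, ?_, ?_, ?_⟩
  · -- first claim
    intro k
    obtain ⟨Ik, hIk⟩ : ∃ Ik : ℝ, Ik = ∫ z, g z := ⟨_, rfl⟩
    rw [← hIk] at hgI0
    have hnmG : ∀ i z, nm m (fun j => G i j z) ≤ ρ ^ i * g z := by
      intro i z
      have e : (fun j => G i j z) = fun j => ((z - a) ^ i * (g z : ℂ)) * c j z := by
        funext j
        rw [hGk]
        ring
      rw [e, nm_smul, norm_mul, hgn]
      calc ‖(z - a) ^ i‖ * g z * nm m (fun j => c j z) ≤ ‖(z - a) ^ i‖ * g z * 1 :=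
            mul_le_mul_of_nonneg_left (hc1 z) (mul_nonneg (norm_nonneg _) (hgB z).1)
        _ ≤ ρ ^ i * g z := by rw [mul_one]; exact hpow i z
    -- the integrals
    have hI1 : ∀ i, nm m (fun j => ∫ z, G i j z) ≤ ρ ^ i * Ik := by
      intro i
      refine (mink volume m (fun j z => G i j z) (fun j hj => (hH i j hj).1)).2.trans ?_
      have h5 := integral_mono (mink volume m (fun j z => G i j z)
        (fun j hj => (hH i j hj).1)).1 (hgint.const_mul (ρ ^ i)) (fun z => hnmG i z)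
      rw [integral_const_mul, ← hIk] at h5
      exact h5
    -- far away
    have hfar : ∀ l : ℂ, 2 * ρ ≤ ‖l - a‖ → nm m (fun j => ht (G k j) l) ≤ ρ ^ k * (Ik / ρ) := by
      intro l hl
      unfold ht
      have h5 := mink volume m (fun j z => G k j z * (z - l)⁻¹)
        (fun j hj => (hH k j hj).2.2.1 l)
      refine h5.2.trans ?_
      have h6 := integral_mono h5.1 (hgint.const_mul (ρ ^ k / ρ)) (fun z => by
        show nm m (fun j => G k j z * (z - l)⁻¹) ≤ ρ ^ k / ρ * g z
        have e : (fun j => G k j z * (z - l)⁻¹) = fun j => (z - l)⁻¹ * G k j z := by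
          funext j; ring
        rw [e, nm_smul]
        by_cases hz : z ∈ ball a ρ
        · have h7 : ρ ≤ ‖z - l‖ := by
            rw [mem_ball, dist_eq_norm] at hz
            have h8 : ‖l - a‖ ≤ ‖z - l‖ + ‖z - a‖ := by
              have : l - a = -(z - l) + (z - a) := by ring
              rw [this]
              refine (norm_add_le _ _).trans (le_of_eq ?_)
              rw [norm_neg]
            linarith
          have h9 : ‖(z - l)⁻¹‖ ≤ ρ⁻¹ := by
            rw [norm_inv]
            exact inv_anti₀ hρ h7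
          calc ‖(z - l)⁻¹‖ * nm m (fun j => G k j z) ≤ ρ⁻¹ * (ρ ^ k * g z) :=
                mul_le_mul h9 (hnmG k z) (nm_nonneg _ _) (by positivity)
            _ = ρ ^ k / ρ * g z := by ring
        · have h7 := hnmG k z
          rw [hg0 z hz, mul_zero] at h7 ⊢
          have h8 : nm m (fun j => G k j z) = 0 := le_antisymm h7 (nm_nonneg _ _)
          rw [h8, mul_zero])
      rw [integral_const_mul, ← hIk] at h6
      refine h6.trans (le_of_eq ?_)
      ring
    -- the recursion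
    have hrec : ∀ (j : ℕ), j < m → ∀ l : ℂ, ht (G k j) l = (l - a) ^ k * ht (G 0 j) l +
        ∑ i ∈ Finset.range k, (l - a) ^ (k - 1 - i) * ∫ z, G i j z := by
      intro j hj l
      clear hfar
      induction k with
      | zero => simp
      | succ k ih =>
        have h2 := (hH k j hj).2.2.2.2 a l
        have h3 : (fun z => (z - a) * G k j z) = G (k + 1) j := by
          funext z
          rw [hGk, hGk]
          ring
        rw [h3] at h2
        rw [h2, ih, Finset.sum_range_succ, mul_add, Finset.mul_sum]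
        have h5 : ∀ i ∈ Finset.range k, (l - a) * ((l - a) ^ (k - 1 - i) * ∫ z, G i j z) =
            (l - a) ^ (k + 1 - 1 - i) * ∫ z, G i j z := by
          intro i hi
          have hi' := Finset.mem_range.1 hi
          have : k + 1 - 1 - i = (k - 1 - i) + 1 := by omega
          rw [this, pow_succ]
          ring
        rw [Finset.sum_congr rfl h5]
        have : k + 1 - 1 - k = 0 := by omega
        rw [this]
        ring
    have hdom := dom u m U₀ hU₀ hu (VV φ u m a g c k) (VV φ u m a g c 0) ((4 * ρ) ^ k)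
      ((4 * ρ) ^ k * (Ik / ρ)) (by positivity) (by positivity) (by
        have hae : ∀ k', ∀ᵐ s ∂μ, (VV φ u m a g c k') s =
            ∑ j ∈ Finset.range m, ht (G k' j) (φ s) * u j s := by
          intro k'
          rw [hV]
          have h5 : ∀ᵐ s ∂μ, ∀ j ∈ Finset.range m,
              (mv φ (u j) (ht (G k' j))) s = ht (G k' j) (φ s) * u j s := by
            rw [Finset.eventually_all]
            intro j hj
            exact (hMVk k' j (Finset.mem_range.1 hj)).1
          filter_upwards [h5, Lp.coeFn_finsetSum (Finset.range m)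
            (fun j => mv φ (u j) (ht (G k' j)))] with s e1 e2
          rw [e2, Finset.sum_apply]
          exact Finset.sum_congr rfl e1
        filter_upwards [hae k, hae 0] with s e1 e2
        obtain ⟨l, hl⟩ : ∃ l, l = φ s := ⟨_, rfl⟩
        rw [← hl] at e1 e2
        obtain ⟨U, hU⟩ : ∃ U : ℝ, U = √(∑ j ∈ Finset.range m, ‖u j s‖ ^ 2) := ⟨_, rfl⟩
        rw [← hU]
        have hU0 : 0 ≤ U := by rw [hU]; exact Real.sqrt_nonneg _
        have hp1 : ρ ^ k ≤ (4 * ρ) ^ k := pow_le_pow_left₀ hρ.le (by linarith) k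
        by_cases hfl : 2 * ρ ≤ ‖l - a‖
        · rw [e1]
          have h5 := cs m (fun j => ht (G k j) l) (fun j => u j s)
          simp only [smul_eq_mul] at h5
          rw [← hU] at h5
          refine h5.trans ?_
          have h6 := mul_le_mul_of_nonneg_right (hfar l hfl) hU0
          have h7 : 0 ≤ (4 * ρ) ^ k * ‖(VV φ u m a g c 0) s‖ := by positivity
          have h8 : ρ ^ k * (Ik / ρ) * U ≤ (4 * ρ) ^ k * (Ik / ρ) * U := by gcongr
          linarith
        · push Not at hfl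
          have h5 : (VV φ u m a g c k) s = (l - a) ^ k * (VV φ u m a g c 0) s +
              ∑ i ∈ Finset.range k, (l - a) ^ (k - 1 - i) *
                ∑ j ∈ Finset.range m, (∫ z, G i j z) * u j s := by
            rw [e1, e2, Finset.mul_sum]
            have h6 : ∀ i ∈ Finset.range k, (l - a) ^ (k - 1 - i) *
                ∑ j ∈ Finset.range m, (∫ z, G i j z) * u j s =
                ∑ j ∈ Finset.range m, (l - a) ^ (k - 1 - i) * ((∫ z, G i j z) * u j s) :=
              fun i _ => Finset.mul_sum _ _ _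
            rw [Finset.sum_congr rfl h6, Finset.sum_comm, ← Finset.sum_add_distrib]
            refine Finset.sum_congr rfl fun j hj => ?_
            rw [hrec j (Finset.mem_range.1 hj) l, add_mul, Finset.sum_mul]
            congr 1
            · ring
            · exact Finset.sum_congr rfl fun i _ => by ring
          have h6 : ∀ i ∈ Finset.range k, ‖(l - a) ^ (k - 1 - i) *
                ∑ j ∈ Finset.range m, (∫ z, G i j z) * u j s‖ ≤
                (2 * ρ) ^ (k - 1) * (Ik * U) := by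
            intro i hi
            have hi' := Finset.mem_range.1 hi
            have h7 := cs m (fun j => ∫ z, G i j z) (fun j => u j s)
            simp only [smul_eq_mul] at h7
            rw [← hU] at h7
            rw [norm_mul, norm_pow]
            calc ‖l - a‖ ^ (k - 1 - i) * ‖∑ j ∈ Finset.range m, (∫ z, G i j z) * u j s‖
                ≤ (2 * ρ) ^ (k - 1 - i) * ((ρ ^ i * Ik) * U) := by
                  refine mul_le_mul (pow_le_pow_left₀ (norm_nonneg _) hfl.le _)
                    (h7.trans (mul_le_mul_of_nonneg_right (hI1 i) hU0)) (norm_nonneg _)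
                    (by positivity)
              _ ≤ (2 * ρ) ^ (k - 1 - i) * (((2 * ρ) ^ i * Ik) * U) := by
                  have : ρ ^ i ≤ (2 * ρ) ^ i := pow_le_pow_left₀ hρ.le (by linarith) i
                  gcongr
              _ = (2 * ρ) ^ (k - 1 - i + i) * (Ik * U) := by rw [pow_add]; ring
              _ = _ := by
                  congr 2
                  omega
          rw [h5]
          have h7 : ‖(l - a) ^ k * (VV φ u m a g c 0) s‖ ≤
              (4 * ρ) ^ k * ‖(VV φ u m a g c 0) s‖ := by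
            rw [norm_mul, norm_pow]
            refine mul_le_mul_of_nonneg_right ?_ (norm_nonneg _)
            exact pow_le_pow_left₀ (norm_nonneg _) (by linarith) k
          have h8 : ‖∑ i ∈ Finset.range k, (l - a) ^ (k - 1 - i) *
                ∑ j ∈ Finset.range m, (∫ z, G i j z) * u j s‖ ≤
                (4 * ρ) ^ k * (Ik / ρ) * U := by
            refine (norm_sum_le _ _).trans ((Finset.sum_le_sum h6).trans ?_)
            rw [Finset.sum_const, Finset.card_range, nsmul_eq_mul]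
            rcases k with _ | k
            · simp only [Nat.cast_zero, zero_mul]
              positivity
            · have hk : ((k + 1 : ℕ) : ℝ) ≤ 2 ^ (k + 1) := by
                exact_mod_cast (Nat.lt_two_pow_self (n := k + 1)).le
              rw [Nat.add_sub_cancel]
              calc ((k + 1 : ℕ) : ℝ) * ((2 * ρ) ^ k * (Ik * U))
                  ≤ 2 ^ (k + 1) * ((2 * ρ) ^ k * (Ik * U)) := by gcongr
                _ = (4 * ρ) ^ k * (2 * (Ik * U)) := by
                    rw [mul_pow, mul_pow, show (4 : ℝ) = 2 * 2 by norm_num, mul_pow, pow_succ]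
                    ring
                _ ≤ (4 * ρ) ^ k * (4 * (Ik * U)) := by gcongr; norm_num
                _ = (4 * ρ) ^ (k + 1) * (Ik / ρ) * U := by
                    rw [pow_succ]
                    field_simp
          exact (norm_add_le _ _).trans (add_le_add h7 h8))
    refine hdom.trans ?_
    rw [← hIk]
    have h9 : 0 ≤ Ik * U₀ / ρ * (4 * ρ) ^ k := by positivity
    have e : (‖VV φ u m a g c 0‖ + 2 * Ik * U₀ / ρ) * (4 * ρ) ^ k =
        (4 * ρ) ^ k * ‖VV φ u m a g c 0‖ + (4 * ρ) ^ k * (Ik / ρ) * U₀ +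
          Ik * U₀ / ρ * (4 * ρ) ^ k := by ring
    rw [e]
    linarith
  · -- second claim
    intro k
    rw [h2 k, hG]
  · -- third claim
    intro k
    have hfr : fr u v m (VV φ u m a g c k) =
        ∑ i ∈ Finset.range m, ⟪v i, VV φ u m a g c k⟫_ℂ • u i := by
      unfold fr
      rw [sum_apply]
      rfl
    have e : (N + fr u v m) (VV φ u m a g c k) - a • VV φ u m a g c k -
        VV φ u m a g c (k + 1) = ∑ i ∈ Finset.range m,
          (-∫ z, (z - a) ^ k * (g z : ℂ) * Am φ u v m z (fun j => c j z) i) • u i := by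
      rw [add_apply, hfr]
      have h5 : N (VV φ u m a g c k) + ∑ i ∈ Finset.range m, ⟪v i, VV φ u m a g c k⟫_ℂ • u i -
          a • VV φ u m a g c k - VV φ u m a g c (k + 1) =
          (N (VV φ u m a g c k) - a • VV φ u m a g c k) - VV φ u m a g c (k + 1) +
            ∑ i ∈ Finset.range m, ⟪v i, VV φ u m a g c k⟫_ℂ • u i := by abel
      rw [h5, h2 k]
      have h6 : VV φ u m a g c (k + 1) - ∑ j ∈ Finset.range m, (∫ z, G k j z) • u j -
          VV φ u m a g c (k + 1) + ∑ i ∈ Finset.range m, ⟪v i, VV φ u m a g c k⟫_ℂ • u i =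
          ∑ i ∈ Finset.range m, ⟪v i, VV φ u m a g c k⟫_ℂ • u i -
            ∑ j ∈ Finset.range m, (∫ z, G k j z) • u j := by abel
      rw [h6, ← Finset.sum_sub_distrib]
      refine Finset.sum_congr rfl fun i hi => ?_
      rw [hFint k i (Finset.mem_range.1 hi), ← sub_smul]
      congr 1
      ring
    rw [e]
    refine (cs m _ u).trans ?_
    have h5 : √(∑ i ∈ Finset.range m, ‖u i‖ ^ 2) ≤ U₀ := Real.sqrt_le_iff.2 ⟨hU₀, hu⟩
    have h6 : nm m (fun i => -∫ z, (z - a) ^ k * (g z : ℂ) * Am φ u v m z (fun j => c j z) i) ≤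
        ρ ^ k * ∫ z, g z * nm m (Am φ u v m z fun j => c j z) := by
      have e1 : nm m (fun i => -∫ z, (z - a) ^ k * (g z : ℂ) * Am φ u v m z (fun j => c j z) i) =
          nm m (fun i => ∫ z, (z - a) ^ k * (g z : ℂ) * Am φ u v m z (fun j => c j z) i) := by
        rw [nm, nm]
        simp only [norm_neg]
      rw [e1]
      have h7 := mink volume m (fun i z => (z - a) ^ k * (g z : ℂ) *
        Am φ u v m z (fun j => c j z) i) (fun i hi => hFi k i hi)
      refine h7.2.trans ?_
      rw [← integral_const_mul]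
      refine integral_mono h7.1 (hgA.const_mul _) fun z => ?_
      show nm m (fun i => (z - a) ^ k * (g z : ℂ) * Am φ u v m z (fun j => c j z) i) ≤ _
      rw [nm_smul, norm_mul, hgn, ← mul_assoc]
      exact mul_le_mul_of_nonneg_right (hpow k z) (nm_nonneg _ _)
    have h8 : 0 ≤ ρ ^ k * ∫ z, g z * nm m (Am φ u v m z fun j => c j z) :=
      (nm_nonneg _ _).trans h6
    calc _ ≤ (ρ ^ k * ∫ z, g z * nm m (Am φ u v m z fun j => c j z)) * U₀ :=
          mul_le_mul h6 h5 (Real.sqrt_nonneg _) h8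
      _ = _ := by ring
  · -- fourth claim
    intro X
    rw [h4 X 0]
    rw [← integral_finsetSum _ fun j hj =>
      ((hCTG X (u j)).2.2 a ρ _ _ (hBd 0 j (Finset.mem_range.1 hj))).1]
    refine integral_congr_ae (Eventually.of_forall fun z => ?_)
    show ∑ j ∈ Finset.range m, G 0 j z * ct φ X (u j) z =
      (g z : ℂ) * ∑ j ∈ Finset.range m, c j z * ct φ X (u j) z
    rw [Finset.mul_sum]
    refine Finset.sum_congr rfl fun j _ => ?_
    rw [hGk, pow_zero, one_mul]
    ring

end Pool.Agent.Q272.TC.VK
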